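import Mathlib

/-!
# Random hypergraphs interpretable in models of ACFO

We prove that every model of `ACFO` interprets a random `(n+1)`-hypergraph for every `n > 0`.

The hypergraph lives on `X = (F^×)^2`. For `N = 2 n` put
`f(x_0, …, x_n) = ∏ y_i^(N+1) + ∏ x_i + ∑_{j,k<N} (∏ x_i)^(N(j+1)+k) * ∑ y_i^(j+1) x_i^k`
(here the `i`-th point is `(x_i, y_i)`), and `R` holds for distinct points with `f < c₀`.
For a fixed set `A` of `n` points the specialisation `f(·, A)` is a polynomial in two variables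
which is irreducible by Eisenstein's criterion, and distinct sets `A` give polynomials that do
not divide each other. So finitely many of them, together with the two coordinates, are
multiplicatively independent modulo constants, and genericity realises every pattern.
-/

namespace Pool.Agent.Results.MP_224b2b_lc.RandomHypergraph

universe u

section logic

open FirstOrder FirstOrder.Language

/-- A binary relation `<` and unary relations `P^r_n` (`0 ≤ r < n`) on a set `G`. -/
structure OrdData (G : Type u) where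
  lt : G → G → Prop
  P : (n : ℕ) → Fin n → G → Prop

/-- Function symbols of the group language. -/
inductive GroupFn : ℕ → Type
  | mul : GroupFn 2
  | inv : GroupFn 1
  | one : GroupFn 0

/-- Relation symbols: `<` and the `P^r_n`. -/
inductive OrdRel : ℕ → Type
  | lt : OrdRel 2
  | P (n : ℕ) (r : Fin n) : OrdRel 1

/-- The language `L_m`. -/
def Lm : Language := ⟨GroupFn, OrdRel⟩

/-- The language `L_c`. -/
def Lc : Language := ⟨FirstOrder.ringFunc, OrdRel⟩

/-- The `L_m`-structure on a group given by `<` and the `P^r_n`. -/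
@[reducible] def mulStructure (G : Type u) [Group G] (D : OrdData G) : Lm.Structure G where
  funMap := fun f x =>
    match f with
    | .mul => x 0 * x 1
    | .inv => (x 0)⁻¹
    | .one => 1
  RelMap := fun R x =>
    match R with
    | .lt => D.lt (x 0) (x 1)
    | .P n r => D.P n r (x 0)

/-- The `L_c`-structure on a field given by `<` and the `P^r_n` on its group of units. -/
@[reducible] def fieldStructure (F : Type u) [Field F] (D : OrdData Fˣ) : Lc.Structure F where
  funMap := fun f x =>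
    match f with
    | .add => x 0 + x 1
    | .mul => x 0 * x 1
    | .neg => - x 0
    | .zero => 0
    | .one => 1
  RelMap := fun R x =>
    match R with
    | .lt => ∃ a b : Fˣ, (a : F) = x 0 ∧ (b : F) = x 1 ∧ D.lt a b
    | .P n r => ∃ a : Fˣ, (a : F) = x 0 ∧ D.P n r a

/-- The group `U_(p)` of complex roots of unity of order prime to `p` (all roots of unity when
`p = 0`). -/
def U (p : ℕ) : Subgroup ℂˣ where
  carrier := {z | ∃ n : ℕ, 0 < n ∧ (p = 0 ∨ Nat.Coprime n p) ∧ z ^ n = 1}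
  one_mem' := ⟨1, one_pos, Or.inr (Nat.coprime_one_left p), one_pow 1⟩
  mul_mem' := by
    rintro a b ⟨n, hn, hnp, ha⟩ ⟨m, hm, hmp, hb⟩
    refine ⟨n * m, Nat.mul_pos hn hm, ?_, ?_⟩
    · rcases hnp with h | h
      · exact Or.inl h
      · rcases hmp with h' | h'
        · exact Or.inl h'
        · exact Or.inr (Nat.Coprime.mul_left h h')
    · rw [mul_pow, pow_mul, ha, one_pow, mul_comm n m, pow_mul, hb, one_pow, one_mul]
  inv_mem' := by
    rintro a ⟨n, hn, hnp, ha⟩
    exact ⟨n, hn, hnp, by rw [inv_pow, ha, inv_one]⟩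

/-- The order of `[0, 1)` transported to the unit circle by `α ↦ exp (2 π i α)`. -/
def circleLt (a b : ℂˣ) : Prop :=
  ∃ α β : ℝ, 0 ≤ α ∧ α < β ∧ β < 1 ∧ (a : ℂ) = Complex.exp (2 * Real.pi * Complex.I * α) ∧
    (b : ℂ) = Complex.exp (2 * Real.pi * Complex.I * β)

/-- The winding number `wn(c, n)`: the number of `0 ≤ k ≤ n - 1` with `c^(k+1) < c^k`. -/
noncomputable def wn (c : ℂˣ) (n : ℕ) : ℕ :=
  Nat.card {k : Fin n // circleLt (c ^ ((k : ℕ) + 1)) (c ^ (k : ℕ))}

/-- The order and the relations `P^r_n` on `U_(p)`. -/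
def circleData (p : ℕ) : OrdData (U p) where
  lt a b := circleLt a b
  P n r a := ∃ c : U p, c ^ n = a ∧ wn c n = r

/-- The theory `T_{m,p}`. -/
def Tm (p : ℕ) : Lm.Theory := @Language.completeTheory Lm (U p) (mulStructure (U p) (circleData p))

/-- Models of `ACFO^-`. -/
def IsModelACFOMinus (F : Type u) [Field F] (D : OrdData Fˣ) : Prop :=
  ∃ p : ℕ, (p.Prime ∨ p = 0) ∧ CharP F p ∧ IsAlgClosed F ∧
    @Theory.Model Lm Fˣ (mulStructure Fˣ D) (Tm p)

section circle

lemma exp_inj {α β : ℝ} (h0 : 0 ≤ α) (h1 : α < 1) (h2 : 0 ≤ β) (h3 : β < 1)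
    (h : Complex.exp (2 * Real.pi * Complex.I * α) = Complex.exp (2 * Real.pi * Complex.I * β)) :
    α = β := by
  rw [Complex.exp_eq_exp_iff_exists_int] at h
  obtain ⟨n, hn⟩ := h
  have h4 : (2 * Real.pi * Complex.I : ℂ) ≠ 0 := by
    simp [Real.pi_ne_zero]
  have h5 : (α : ℂ) = β + n := by
    apply mul_left_cancel₀ h4
    rw [hn]
    ring
  have h6 : α = β + n := by exact_mod_cast h5
  have h7 : n = 0 := by
    have h8 : (n : ℝ) < 1 := by linarith
    have h9 : (-1 : ℝ) < n := by linarith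
    have h10 : n < 1 := by exact_mod_cast h8
    have h11 : -1 < n := by exact_mod_cast h9
    omega
  rw [h6, h7]
  simp

lemma circleLt_asymm (a b : ℂˣ) (h : circleLt a b) : ¬ circleLt b a := by
  rintro ⟨β', α', h0', h1', h2', hb', ha'⟩
  obtain ⟨α, β, h0, h1, h2, ha, hb⟩ := h
  have e1 := exp_inj h0 (by linarith) (by linarith) h2' (ha.symm.trans ha')
  have e2 := exp_inj (by linarith) h2 h0' (by linarith) (hb.symm.trans hb')
  linarith

lemma exists_order (p : ℕ) : ∃ q : ℕ, 4 ≤ q ∧ (p = 0 ∨ Nat.Coprime q p) := by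
  rcases Nat.eq_zero_or_pos p with rfl | hp
  · exact ⟨4, le_refl _, Or.inl rfl⟩
  · refine ⟨4 * p + 1, by omega, Or.inr ?_⟩
    simp

/-- A chain of elements of the circle. -/
lemma exists_chain (p : ℕ) : ∃ a b c : U p, (circleData p).lt 1 a ∧ (circleData p).lt a b ∧
    (circleData p).lt b c := by
  obtain ⟨q, hq, hqp⟩ := exists_order p
  have hq0 : (q : ℂ) ≠ 0 := by
    have : q ≠ 0 := by omega
    exact_mod_cast this
  let ζ : ℂˣ := Units.mk0 (Complex.exp (2 * Real.pi * Complex.I * ((1 : ℝ) / (q : ℝ) : ℝ)))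
    (Complex.exp_ne_zero _)
  have hpow : ∀ k : ℕ, ((ζ ^ k : ℂˣ) : ℂ) =
      Complex.exp (2 * Real.pi * Complex.I * (((k : ℝ) / (q : ℝ) : ℝ) : ℂ)) := by
    intro k
    rw [Units.val_pow_eq_pow_val, Units.val_mk0, ← Complex.exp_nat_mul]
    congr 1
    push_cast
    field_simp
  have hζ : ζ ∈ U p := by
    refine ⟨q, by omega, hqp, ?_⟩
    ext
    rw [hpow q]
    have : ((q : ℝ) / (q : ℝ) : ℝ) = 1 := div_self (by exact_mod_cast (show q ≠ 0 by omega))
    rw [this]
    simp [Complex.exp_two_pi_mul_I]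
  have hlt : ∀ k l : ℕ, k < l → l < q → circleLt (ζ ^ k) (ζ ^ l) := by
    intro k l hkl hl
    have hqR : (0 : ℝ) < q := by exact_mod_cast (show 0 < q by omega)
    refine ⟨(k : ℝ) / q, (l : ℝ) / q, by positivity, ?_, ?_, hpow k, hpow l⟩
    · exact div_lt_div_of_pos_right (by exact_mod_cast hkl) hqR
    · rw [div_lt_one hqR]
      exact_mod_cast hl
  refine ⟨⟨ζ, hζ⟩ ^ 1, ⟨ζ, hζ⟩ ^ 2, ⟨ζ, hζ⟩ ^ 3, ?_, ?_, ?_⟩
  · have := hlt 0 1 (by norm_num) (by omega)
    rw [pow_zero] at this
    exact this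
  · exact hlt 1 2 (by norm_num) (by omega)
  · exact hlt 2 3 (by norm_num) (by omega)

/-- The relation symbol `<` of `L_m`. -/
def ltSym : Lm.Relations 2 := OrdRel.lt

/-- The constant symbol `1` of `L_m`. -/
def oneSym : Lm.Constants := GroupFn.one

/-- The sentence `∀ x y, x < y → ¬ y < x`. -/
def asymmSentence : Lm.Sentence :=
  (ltSym.boundedFormula₂ (&0) (&1) ⟹
    ∼(ltSym.boundedFormula₂ (&1) (&0)) : Lm.BoundedFormula Empty 2).all.all

/-- The sentence `∃ x y z, 1 < x ∧ x < y ∧ y < z`. -/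
def chainSentence : Lm.Sentence :=
  (ltSym.boundedFormula₂ oneSym.term (&0) ⊓
    (ltSym.boundedFormula₂ (&0) (&1) ⊓
    ltSym.boundedFormula₂ (&1) (&2)) : Lm.BoundedFormula Empty 3).ex.ex.ex

lemma realize_asymm (G : Type u) [Group G] (D : OrdData G) :
    @Sentence.Realize Lm G (mulStructure G D) asymmSentence ↔
      ∀ a b : G, D.lt a b → ¬ D.lt b a := by
  let _ := mulStructure G D
  simp only [asymmSentence, Sentence.Realize, Formula.Realize, BoundedFormula.realize_all,
    BoundedFormula.realize_imp, BoundedFormula.realize_not, BoundedFormula.realize_rel₂]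
  rfl

lemma realize_chain (G : Type u) [Group G] (D : OrdData G) :
    @Sentence.Realize Lm G (mulStructure G D) chainSentence ↔
      ∃ a b c : G, D.lt 1 a ∧ D.lt a b ∧ D.lt b c := by
  let _ := mulStructure G D
  simp only [chainSentence, Sentence.Realize, Formula.Realize, BoundedFormula.realize_ex,
    BoundedFormula.realize_inf, BoundedFormula.realize_rel₂, Term.realize_constants]
  rfl

lemma circle_asymm (p : ℕ) : @Sentence.Realize Lm (U p) (mulStructure _ (circleData p))
    asymmSentence := by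
  rw [realize_asymm]
  exact fun a b h => circleLt_asymm _ _ h

lemma circle_chain (p : ℕ) : @Sentence.Realize Lm (U p) (mulStructure _ (circleData p))
    chainSentence := by
  rw [realize_chain]
  exact exists_chain p

lemma asymm_of_model {F : Type u} [Field F] {D : OrdData Fˣ} (h : IsModelACFOMinus F D)
    (a b : Fˣ) (hab : D.lt a b) : ¬ D.lt b a := by
  obtain ⟨p, _, _, _, hT⟩ := h
  have h1 : @Sentence.Realize Lm Fˣ (mulStructure _ D) asymmSentence :=
    hT.realize_of_mem _ (circle_asymm p)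
  exact (realize_asymm _ _).1 h1 a b hab

lemma chain_of_model {F : Type u} [Field F] {D : OrdData Fˣ} (h : IsModelACFOMinus F D) :
    ∃ a b c : Fˣ, D.lt 1 a ∧ D.lt a b ∧ D.lt b c := by
  obtain ⟨p, _, _, _, hT⟩ := h
  have h1 : @Sentence.Realize Lm Fˣ (mulStructure _ D) chainSentence :=
    hT.realize_of_mem _ (circle_chain p)
  exact (realize_chain _ _).1 h1

end circle

/-! ### Random hypergraphs and interpretations -/

/-- `(X, R)` is a random `(n+1)`-hypergraph. The vertex set `X` is required to be infinite: a set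
with fewer than `n` elements would have the extension property for trivial reasons. -/
structure IsRandomHypergraph {X : Type u} (n : ℕ) (R : Set (Fin (n + 1) → X)) : Prop where
  infinite : Infinite X
  symm : ∀ (σ : Equiv.Perm (Fin (n + 1))) (x : Fin (n + 1) → X), x ∈ R → x ∘ σ ∈ R
  distinct : ∀ x ∈ R, Function.Injective x
  extension : ∀ 𝒜 ℬ : Finset (Finset X), Disjoint 𝒜 ℬ → (∀ A ∈ 𝒜, A.card = n) →
    (∀ B ∈ ℬ, B.card = n) → ∃ v : X, (∀ A ∈ 𝒜, v ∉ A) ∧ (∀ B ∈ ℬ, v ∉ B) ∧
      (∀ a : Fin n → X, (∃ A ∈ 𝒜, ∀ x, x ∈ A ↔ ∃ i, a i = x) → Fin.cons v a ∈ R) ∧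
      (∀ b : Fin n → X, (∃ B ∈ ℬ, ∀ x, x ∈ B ↔ ∃ i, b i = x) → Fin.cons v b ∉ R)

/-- The `L`-structure `M` interprets a random `(n+1)`-hypergraph: there are a definable set `S`,
a definable equivalence relation `E` on `S` and a definable relation `R` on `X = S / E` such that
`(X, R)` is a random `(n+1)`-hypergraph (parameters are allowed). -/
def InterpretsRandomHypergraph (L : Language) (M : Type u) [L.Structure M] (n : ℕ) : Prop :=
  ∃ (d : ℕ) (S : Set (Fin d → M)) (E : Setoid S) (R : Set (Fin (n + 1) → Quotient E)),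
    (Set.univ : Set M).Definable L S ∧
    (Set.univ : Set M).Definable L {z : Fin d ⊕ Fin d → M |
      ∃ (h₁ : (fun i => z (Sum.inl i)) ∈ S) (h₂ : (fun i => z (Sum.inr i)) ∈ S),
        E.r ⟨_, h₁⟩ ⟨_, h₂⟩} ∧
    (Set.univ : Set M).Definable L {z : Fin (n + 1) × Fin d → M |
      ∃ h : ∀ i, (fun j => z (i, j)) ∈ S,
        (fun i => (Quotient.mk E ⟨_, h i⟩ : Quotient E)) ∈ R} ∧
    IsRandomHypergraph n R

/-! ### Definability of polynomial conditions -/

section definability

/-- The symbol `+` of `L_c`. -/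
def addSym : Lc.Functions 2 := FirstOrder.ringFunc.add

/-- The symbol `*` of `L_c`. -/
def mulSym : Lc.Functions 2 := FirstOrder.ringFunc.mul

/-- The symbol `<` of `L_c`. -/
def ltSymC : Lc.Relations 2 := OrdRel.lt

variable {F : Type u} [Field F] (D : OrdData Fˣ) {α : Type}

lemma exists_term (p : MvPolynomial α F) :
    letI := fieldStructure F D
    ∃ t : Lc[[(Set.univ : Set F)]].Term α, ∀ z : α → F,
      t.realize z = MvPolynomial.eval z p := by
  let _ := fieldStructure F D
  induction p using MvPolynomial.induction_on with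
  | C a =>
    refine ⟨(Lc.con (⟨a, Set.mem_univ a⟩ : (Set.univ : Set F))).term, fun z => ?_⟩
    rw [MvPolynomial.eval_C]
    exact Term.realize_con
  | add p q hp hq =>
    obtain ⟨t, ht⟩ := hp
    obtain ⟨s, hs⟩ := hq
    refine ⟨((Lc.lhomWithConstants (Set.univ : Set F)).onFunction addSym).apply₂ t s,
      fun z => ?_⟩
    rw [map_add, Term.realize_functions_apply₂, ht z, hs z]
    rfl
  | mul_X p i hp =>
    obtain ⟨t, ht⟩ := hp
    refine ⟨((Lc.lhomWithConstants (Set.univ : Set F)).onFunction mulSym).apply₂ t (Term.var i),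
      fun z => ?_⟩
    rw [map_mul, MvPolynomial.eval_X, Term.realize_functions_apply₂, ht z, Term.realize_var]
    rfl

lemma definable_eq_zero (p : MvPolynomial α F) :
    letI := fieldStructure F D
    (Set.univ : Set F).Definable Lc {z : α → F | MvPolynomial.eval z p = 0} := by
  let _ := fieldStructure F D
  obtain ⟨t, ht⟩ := exists_term D p
  obtain ⟨s, hs⟩ := exists_term D (0 : MvPolynomial α F)
  refine ⟨t.equal s, ?_⟩
  ext z
  simp only [Set.mem_ofPred_eq, Formula.realize_equal, ht, hs, map_zero]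

lemma definable_lt (p q : MvPolynomial α F) :
    letI := fieldStructure F D
    (Set.univ : Set F).Definable Lc {z : α → F | ∃ a b : Fˣ, (a : F) = MvPolynomial.eval z p ∧
      (b : F) = MvPolynomial.eval z q ∧ D.lt a b} := by
  let _ := fieldStructure F D
  obtain ⟨t, ht⟩ := exists_term D p
  obtain ⟨s, hs⟩ := exists_term D q
  refine ⟨((Lc.lhomWithConstants (Set.univ : Set F)).onRelation ltSymC).formula₂ t s, ?_⟩
  ext z
  rw [Set.mem_ofPred_eq, Set.mem_ofPred_eq, Formula.realize_rel₂, ht, hs]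
  rfl

end definability

end logic

section geometry

open Polynomial Polynomial.Bivariate

section varieties

variable {F : Type u} [Field F]

/-- Zariski-closed subsets of `F^m`. -/
def IsZariskiClosed {m : ℕ} (Z : Set (Fin m → F)) : Prop :=
  ∃ S : Set (MvPolynomial (Fin m) F), Z = {x | ∀ f ∈ S, MvPolynomial.eval x f = 0}

/-- Irreducible Zariski-closed subsets of `F^m`. -/
def IsIrreducibleClosed {m : ℕ} (Z : Set (Fin m → F)) : Prop :=
  IsZariskiClosed Z ∧ Z.Nonempty ∧
    ∀ Z₁ Z₂ : Set (Fin m → F), IsZariskiClosed Z₁ → IsZariskiClosed Z₂ →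
      Z ⊆ Z₁ ∪ Z₂ → Z ⊆ Z₁ ∨ Z ⊆ Z₂

/-- A quasi-affine variety: a nonempty Zariski-open subset of an irreducible Zariski-closed
subset of `F^m`. -/
def IsQuasiAffineVariety {m : ℕ} (V : Set (Fin m → F)) : Prop :=
  V.Nonempty ∧ ∃ Z W : Set (Fin m → F), IsIrreducibleClosed Z ∧ IsZariskiClosed W ∧ V = Z \ W

/-- The points of `V` with all coordinates nonzero, as a subset of `(F^×)^m`. -/
def unitPoints {m : ℕ} (V : Set (Fin m → F)) : Set (Fin m → Fˣ) :=
  {x | (fun i => (x i : F)) ∈ V}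

/-- Multiplicatively large: `V ∩ (F^×)^m` is contained in no set `x₁^k₁ ⋯ x_m^k_m = c` with
`k ≠ 0`. -/
def MultiplicativelyLarge {m : ℕ} (V : Set (Fin m → F)) : Prop :=
  ∀ k : Fin m → ℤ, k ≠ 0 → ∀ c : Fˣ, ¬ unitPoints V ⊆ {x | ∏ i, x i ^ k i = c}

/-- The order topology on `F^×`, generated by the sets `1 ≤ a < c'` and `c < a < c'`. -/
@[reducible] def orderTopology (D : OrdData Fˣ) : TopologicalSpace Fˣ :=
  TopologicalSpace.generateFrom
    ({U | ∃ c' : Fˣ, U = {a | (1 = a ∨ D.lt 1 a) ∧ D.lt a c'}} ∪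
      {U | ∃ c c' : Fˣ, U = {a | D.lt c a ∧ D.lt a c'}})

/-- Genericity: every multiplicatively large quasi-affine variety has a dense set of points with
nonzero coordinates. -/
def IsGeneric (D : OrdData Fˣ) : Prop :=
  ∀ (m : ℕ) (V : Set (Fin m → F)), IsQuasiAffineVariety V → MultiplicativelyLarge V →
    @Dense (Fin m → Fˣ) (@Pi.topologicalSpace (Fin m) (fun _ => Fˣ) fun _ => orderTopology D)
      (unitPoints V)

/-! ### Pulling back polynomials -/

lemma evalEval_aeval {σ : Type*} (g : σ → F[X][Y]) (h : MvPolynomial σ F) (x y : F) :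
    (MvPolynomial.aeval g h).evalEval x y =
      MvPolynomial.eval (fun i => (g i).evalEval x y) h := by
  have h1 := MvPolynomial.map_aeval g (evalEvalRingHom x y) h
  have h2 : (evalEvalRingHom x y).comp (algebraMap F F[X][Y]) = RingHom.id F := by
    ext a
    simp [Polynomial.algebraMap_apply]
  rw [h2] at h1
  exact h1

/-- The substitution `X ↦ X_i`, `Y ↦ X_j`. -/
noncomputable def pullVars {m : ℕ} (i j : Fin m) : F[X][Y] →+* MvPolynomial (Fin m) F :=
  Polynomial.eval₂RingHom (Polynomial.eval₂RingHom MvPolynomial.C (MvPolynomial.X i))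
    (MvPolynomial.X j)

lemma eval_pullVars {m : ℕ} (i j : Fin m) (g : F[X][Y]) (t : Fin m → F) :
    MvPolynomial.eval t (pullVars i j g) = g.evalEval (t i) (t j) := by
  have h : (MvPolynomial.eval t).comp (pullVars i j) = evalEvalRingHom (t i) (t j) := by
    ext a <;> simp [pullVars]
  exact RingHom.congr_fun h g

lemma exists_evalEval_ne_zero [Infinite F] (g : F[X][Y]) (hg : g ≠ 0) :
    ∃ x y : F, g.evalEval x y ≠ 0 := by
  have h1 : ∃ j, g.coeff j ≠ 0 := by
    by_contra hcon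
    push Not at hcon
    exact hg (Polynomial.ext fun j => by simpa using hcon j)
  obtain ⟨j, hj⟩ := h1
  have h2 : ∃ x, (g.coeff j).eval x ≠ 0 := by
    by_contra hcon
    push Not at hcon
    exact hj (Polynomial.funext fun x => by simpa using hcon x)
  obtain ⟨x, hx⟩ := h2
  have h3 : g.map (evalRingHom x) ≠ 0 := by
    intro h
    apply hx
    have := congrArg (fun q => Polynomial.coeff q j) h
    simpa using this
  have h4 : ∃ y, (g.map (evalRingHom x)).eval y ≠ 0 := by
    by_contra hcon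
    push Not at hcon
    exact h3 (Polynomial.funext fun y => by simpa using hcon y)
  obtain ⟨y, hy⟩ := h4
  exact ⟨x, y, by rwa [map_evalRingHom_eval] at hy⟩

/-- The graph variety attached to a family of polynomials. -/
def graphVariety {m : ℕ} (g : Fin m → F[X][Y]) (i₀ i₁ : Fin m) : Set (Fin m → F) :=
  {t | ∀ i, t i = (g i).evalEval (t i₀) (t i₁)}

/-- Its parametrisation. -/
noncomputable def graphPoint {m : ℕ} (g : Fin m → F[X][Y]) (x y : F) : Fin m → F :=
  fun i => (g i).evalEval x y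

lemma graphPoint_mem {m : ℕ} (g : Fin m → F[X][Y]) (i₀ i₁ : Fin m) (h₀ : g i₀ = C X)
    (h₁ : g i₁ = Y) (x y : F) : graphPoint g x y ∈ graphVariety g i₀ i₁ := by
  intro i
  simp [graphPoint, h₀, h₁, evalEval_C]

lemma mem_graph {m : ℕ} {g : Fin m → F[X][Y]} {i₀ i₁ : Fin m} {t : Fin m → F}
    (ht : t ∈ graphVariety g i₀ i₁) : t = graphPoint g (t i₀) (t i₁) :=
  funext fun i => ht i

lemma graph_closed {m : ℕ} (g : Fin m → F[X][Y]) (i₀ i₁ : Fin m) :
    IsZariskiClosed (graphVariety g i₀ i₁) := by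
  refine ⟨Set.range fun i => MvPolynomial.X i - pullVars i₀ i₁ (g i), ?_⟩
  ext t
  simp only [graphVariety, Set.mem_ofPred_eq, Set.forall_mem_range, map_sub, MvPolynomial.eval_X,
    eval_pullVars, sub_eq_zero]

lemma zeroSet_closed {m : ℕ} (e : F[X][Y]) (i₀ i₁ : Fin m) :
    IsZariskiClosed {t : Fin m → F | e.evalEval (t i₀) (t i₁) = 0} := by
  refine ⟨{pullVars i₀ i₁ e}, ?_⟩
  ext t
  simp [eval_pullVars]

lemma graph_irreducible [Infinite F] {m : ℕ} (g : Fin m → F[X][Y]) (i₀ i₁ : Fin m)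
    (h₀ : g i₀ = C X) (h₁ : g i₁ = Y) : IsIrreducibleClosed (graphVariety g i₀ i₁) := by
  refine ⟨graph_closed g i₀ i₁, ⟨_, graphPoint_mem g i₀ i₁ h₀ h₁ 0 0⟩, ?_⟩
  rintro Z₁ Z₂ ⟨S₁, rfl⟩ ⟨S₂, rfl⟩ hZ
  by_contra hcon
  rw [not_or, Set.not_subset, Set.not_subset] at hcon
  obtain ⟨⟨t₁, ht₁, hn₁⟩, ⟨t₂, ht₂, hn₂⟩⟩ := hcon
  simp only [Set.mem_ofPred_eq, not_forall] at hn₁ hn₂
  obtain ⟨f₁, hf₁, hv₁⟩ := hn₁
  obtain ⟨f₂, hf₂, hv₂⟩ := hn₂
  have hp₁ : MvPolynomial.aeval g f₁ ≠ 0 := by
    intro h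
    apply hv₁
    rw [mem_graph ht₁]
    unfold graphPoint
    rw [← evalEval_aeval, h, evalEval_zero]
  have hp₂ : MvPolynomial.aeval g f₂ ≠ 0 := by
    intro h
    apply hv₂
    rw [mem_graph ht₂]
    unfold graphPoint
    rw [← evalEval_aeval, h, evalEval_zero]
  obtain ⟨x, y, hxy⟩ := exists_evalEval_ne_zero _ (mul_ne_zero hp₁ hp₂)
  rw [evalEval_mul, evalEval_aeval, evalEval_aeval] at hxy
  rcases hZ (graphPoint_mem g i₀ i₁ h₀ h₁ x y) with h | h
  · exact hxy (by rw [show MvPolynomial.eval (fun i => (g i).evalEval x y) f₁ = 0 from h f₁ hf₁,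
      zero_mul])
  · exact hxy (by rw [show MvPolynomial.eval (fun i => (g i).evalEval x y) f₂ = 0 from h f₂ hf₂,
      mul_zero])

/-- The part of the graph variety on which `e` does not vanish. -/
def graphOpen {m : ℕ} (g : Fin m → F[X][Y]) (i₀ i₁ : Fin m) (e : F[X][Y]) : Set (Fin m → F) :=
  graphVariety g i₀ i₁ \ {t : Fin m → F | e.evalEval (t i₀) (t i₁) = 0}

lemma graphPoint_mem_open {m : ℕ} (g : Fin m → F[X][Y]) (i₀ i₁ : Fin m) (h₀ : g i₀ = C X)
    (h₁ : g i₁ = Y) (e : F[X][Y]) (x y : F) (he : e.evalEval x y ≠ 0) :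
    graphPoint g x y ∈ graphOpen g i₀ i₁ e := by
  refine ⟨graphPoint_mem g i₀ i₁ h₀ h₁ x y, ?_⟩
  simpa [graphPoint, h₀, h₁, evalEval_C] using he

lemma graph_quasiAffine [Infinite F] {m : ℕ} (g : Fin m → F[X][Y]) (i₀ i₁ : Fin m)
    (h₀ : g i₀ = C X) (h₁ : g i₁ = Y) (e : F[X][Y]) (he : e ≠ 0) :
    IsQuasiAffineVariety (graphOpen g i₀ i₁ e) := by
  obtain ⟨x, y, hxy⟩ := exists_evalEval_ne_zero e he
  exact ⟨⟨_, graphPoint_mem_open g i₀ i₁ h₀ h₁ e x y hxy⟩, _, _,
    graph_irreducible g i₀ i₁ h₀ h₁, zeroSet_closed e i₀ i₁, rfl⟩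

lemma not_dvd_of_zpow {ι : Type*} [Fintype ι] (g : ι → F[X][Y]) (hg : ∀ i, Prime (g i))
    (hnd : ∀ i j, i ≠ j → ¬ g i ∣ g j) (k : ι → ℤ) (c : F) (hc : c ≠ 0) (i : ι)
    (hki : 0 < k i) :
    ∏ j, g j ^ (k j).toNat ≠ C (C c) * ∏ j, g j ^ (-k j).toNat := by
  classical
  intro h
  have h1 : g i ∣ ∏ j, g j ^ (k j).toNat := by
    refine dvd_trans ?_ (Finset.dvd_prod_of_mem _ (Finset.mem_univ i))
    refine dvd_pow_self _ ?_
    omega
  rw [h] at h1
  rcases (hg i).dvd_or_dvd h1 with h2 | h2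
  · exact (hg i).not_isUnit (isUnit_of_dvd_unit h2 (isUnit_C.2 (isUnit_C.2 (isUnit_iff_ne_zero.2 hc))))
  · obtain ⟨j, _, hj⟩ := (hg i).exists_mem_finset_dvd h2
    have h3 := (hg i).dvd_of_dvd_pow hj
    have hij : i = j := by
      by_contra hne
      exact hnd i j hne h3
    subst hij
    have h4 : (-k i).toNat = 0 := by omega
    rw [h4, pow_zero] at hj
    exact (hg i).not_isUnit (isUnit_of_dvd_one hj)

lemma graph_large [Infinite F] {m : ℕ} (g : Fin m → F[X][Y]) (i₀ i₁ : Fin m)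
    (h₀ : g i₀ = C X) (h₁ : g i₁ = Y) (hg : ∀ i, Prime (g i))
    (hnd : ∀ i j, i ≠ j → ¬ g i ∣ g j) (e : F[X][Y]) (he : e ≠ 0) :
    MultiplicativelyLarge (graphOpen g i₀ i₁ e) := by
  intro k hk c hsub
  -- the polynomial identity
  have key : ∏ j, g j ^ (k j).toNat = C (C (c : F)) * ∏ j, g j ^ (-k j).toNat := by
    by_contra hne
    have h2 : (∏ j, g j ^ (k j).toNat - C (C (c : F)) * ∏ j, g j ^ (-k j).toNat) *
        (e * ∏ j, g j) ≠ 0 :=
      mul_ne_zero (sub_ne_zero.2 hne) (mul_ne_zero he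
        (Finset.prod_ne_zero_iff.2 fun j _ => (hg j).ne_zero))
    obtain ⟨x, y, hxy⟩ := exists_evalEval_ne_zero _ h2
    rw [evalEval_mul, evalEval_mul, evalEval_prod] at hxy
    have he' : e.evalEval x y ≠ 0 := fun h => hxy (by rw [h, zero_mul, mul_zero])
    have hg' : ∀ j, (g j).evalEval x y ≠ 0 := by
      intro j h
      apply hxy
      have h0 : ∏ j, (g j).evalEval x y = 0 := Finset.prod_eq_zero (Finset.mem_univ j) h
      rw [h0, mul_zero, mul_zero]
    let u : Fin m → Fˣ := fun j => Units.mk0 _ (hg' j)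
    have hu : u ∈ unitPoints (graphOpen g i₀ i₁ e) :=
      graphPoint_mem_open g i₀ i₁ h₀ h₁ e x y he'
    have h3 : ∏ i, u i ^ k i = c := hsub hu
    apply hxy
    rw [evalEval_sub, evalEval_mul, evalEval_prod, evalEval_prod, evalEval_CC]
    have h4 : ∏ j, (u j) ^ (k j).toNat = c * ∏ j, (u j) ^ (-k j).toNat := by
      rw [← h3, ← Finset.prod_mul_distrib]
      refine Finset.prod_congr rfl fun j _ => ?_
      rw [← zpow_natCast, ← zpow_natCast, ← zpow_add]
      congr 1
      omega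
    have h5 := congrArg (fun w : Fˣ => (w : F)) h4
    simp only [Units.coe_prod, Units.val_pow_eq_pow_val, Units.val_mul] at h5
    have h6 : ∀ j, ((u j : Fˣ) : F) = (g j).evalEval x y := fun j => rfl
    simp only [h6] at h5
    simp only [evalEval_pow, h5, sub_self, zero_mul]
  -- pick an exponent that is not zero
  obtain ⟨i, hi⟩ : ∃ i, k i ≠ 0 := by
    by_contra hcon
    push Not at hcon
    exact hk (funext hcon)
  rcases lt_or_gt_of_ne hi with hneg | hpos
  · have h7 := not_dvd_of_zpow g hg hnd (fun j => - k j) ((c⁻¹ : Fˣ) : F) (c⁻¹).ne_zero i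
      (by simpa using hneg)
    apply h7
    simp only [neg_neg]
    rw [key, ← mul_assoc, ← C_mul, ← C_mul]
    simp
  · exact not_dvd_of_zpow g hg hnd k (c : F) c.ne_zero i hpos key

/-- Pattern lemma: in a generic structure, prescribed nonempty order-open conditions on pairwise
non-dividing primes `g i` are satisfied at some point with `e ≠ 0`. -/
lemma exists_pattern [Infinite F] (D : OrdData Fˣ) (hD : IsGeneric D) {ι : Type*} [Fintype ι]
    (g : ι → F[X][Y]) (i₀ i₁ : ι) (h₀ : g i₀ = C X) (h₁ : g i₁ = Y) (hg : ∀ i, Prime (g i))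
    (hnd : ∀ i j, i ≠ j → ¬ g i ∣ g j) (e : F[X][Y]) (he : e ≠ 0) (O : ι → Set Fˣ)
    (hO : ∀ i, @IsOpen Fˣ (orderTopology D) (O i)) (hO' : ∀ i, (O i).Nonempty) :
    ∃ x y : F, e.evalEval x y ≠ 0 ∧ ∀ i, ∃ u ∈ O i, (u : F) = (g i).evalEval x y := by
  classical
  let ε : ι ≃ Fin (Fintype.card ι) := Fintype.equivFin ι
  let g' : Fin (Fintype.card ι) → F[X][Y] := fun i => g (ε.symm i)
  have h₀' : g' (ε i₀) = C X := by simp [g', h₀]
  have h₁' : g' (ε i₁) = Y := by simp [g', h₁]
  have hnd' : ∀ i j, i ≠ j → ¬ g' i ∣ g' j := fun i j hij =>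
    hnd _ _ fun h => hij (ε.symm.injective h)
  have hq := graph_quasiAffine g' (ε i₀) (ε i₁) h₀' h₁' e he
  have hl := graph_large g' (ε i₀) (ε i₁) h₀' h₁' (fun i => hg _) hnd' e he
  have hdense := hD _ _ hq hl
  let _ : TopologicalSpace Fˣ := orderTopology D
  have hopen : IsOpen (Set.pi Set.univ fun i => O (ε.symm i)) :=
    isOpen_set_pi Set.finite_univ fun i _ => hO _
  have hne : (Set.pi Set.univ fun i => O (ε.symm i)).Nonempty := by
    rw [Set.univ_pi_nonempty_iff]
    exact fun i => hO' _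
  obtain ⟨t, ht, htV⟩ := hdense.inter_open_nonempty _ hopen hne
  obtain ⟨htV1, htV2⟩ := htV
  refine ⟨(t (ε i₀) : F), (t (ε i₁) : F), htV2, fun i => ⟨t (ε i), ?_, ?_⟩⟩
  · have := ht (ε i) (Set.mem_univ _)
    simpa using this
  · have := htV1 (ε i)
    simpa [g'] using this

end varieties

end geometry

section coding

open Polynomial Polynomial.Bivariate

section algebra

variable {F : Type u} [Field F]

/-- The two-variable polynomials used to code finite sets of points. -/
noncomputable def codePoly (N : ℕ) (α β : F) (p : ℕ → ℕ → F) : F[X][Y] :=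
  C (C β) * Y ^ (N + 1) + C (C α * X) +
    ∑ j ∈ Finset.range N, ∑ k ∈ Finset.range N,
      C ((C α * X) ^ (N * (j + 1) + k)) * (Y ^ (j + 1) * C (X ^ k) + C (C (p j k)))

lemma codePoly_coeff (N : ℕ) (α β : F) (p : ℕ → ℕ → F) (i : ℕ) :
    (codePoly N α β p).coeff i =
      (if i = N + 1 then C β else 0) + (if i = 0 then C α * X else 0) +
      ∑ j ∈ Finset.range N, ∑ k ∈ Finset.range N,
        (C α * X) ^ (N * (j + 1) + k) *
          ((if i = j + 1 then X ^ k else 0) + (if i = 0 then C (p j k) else 0)) := by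
  unfold codePoly
  simp only [coeff_add, finsetSum_coeff, coeff_C_mul, coeff_X_pow, coeff_C, coeff_mul_C]
  congr 1
  · congr 1
    split_ifs <;> simp
  · refine Finset.sum_congr rfl fun j _ => Finset.sum_congr rfl fun k _ => ?_
    congr 2
    split_ifs <;> simp

lemma codePoly_coeff_zero (N : ℕ) (α β : F) (p : ℕ → ℕ → F) :
    (codePoly N α β p).coeff 0 = C α * X +
      ∑ j ∈ Finset.range N, ∑ k ∈ Finset.range N,
        (C α * X) ^ (N * (j + 1) + k) * C (p j k) := by
  rw [codePoly_coeff]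
  simp

lemma codePoly_coeff_top (N : ℕ) (α β : F) (p : ℕ → ℕ → F) :
    (codePoly N α β p).coeff (N + 1) = C β := by
  rw [codePoly_coeff]
  have : ∀ j ∈ Finset.range N, ∑ k ∈ Finset.range N,
        (C α * X) ^ (N * (j + 1) + k) *
          ((if N + 1 = j + 1 then X ^ k else 0) + (if N + 1 = 0 then C (p j k) else 0)) = 0 := by
    intro j hj
    refine Finset.sum_eq_zero fun k _ => ?_
    have h1 : ¬ (N + 1 = j + 1) := by
      have := Finset.mem_range.1 hj
      omega
    rw [if_neg h1]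
    simp
  rw [Finset.sum_eq_zero this]
  simp

lemma codePoly_coeff_succ (N : ℕ) (α β : F) (p : ℕ → ℕ → F) (j : ℕ) (hj : j < N) :
    (codePoly N α β p).coeff (j + 1) =
      ∑ k ∈ Finset.range N, (C α * X) ^ (N * (j + 1) + k) * X ^ k := by
  rw [codePoly_coeff, Finset.sum_eq_single j]
  · have h1 : ¬ (j + 1 = N + 1) := by omega
    rw [if_neg h1]
    simp
  · intro i _ hij
    refine Finset.sum_eq_zero fun k _ => ?_
    have h1 : ¬ (j + 1 = i + 1) := by omega
    rw [if_neg h1]
    simp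
  · intro h
    exact absurd (Finset.mem_range.2 hj) h

lemma codePoly_coeff_large (N : ℕ) (α β : F) (p : ℕ → ℕ → F) (i : ℕ) (hi : N + 1 < i) :
    (codePoly N α β p).coeff i = 0 := by
  rw [codePoly_coeff]
  have h0 : ¬ (i = 0) := by omega
  have h1 : ¬ (i = N + 1) := by omega
  simp only [h0, h1, if_false, add_zero, zero_add]
  refine Finset.sum_eq_zero fun j hj => Finset.sum_eq_zero fun k _ => ?_
  have h2 : ¬ (i = j + 1) := by
    have := Finset.mem_range.1 hj
    omega
  rw [if_neg h2]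
  simp

lemma codePoly_natDegree (N : ℕ) (α β : F) (hβ : β ≠ 0) (p : ℕ → ℕ → F) :
    (codePoly N α β p).natDegree = N + 1 := by
  apply le_antisymm
  · rw [natDegree_le_iff_coeff_eq_zero]
    intro i hi
    exact codePoly_coeff_large N α β p i hi
  · apply le_natDegree_of_ne_zero
    rw [codePoly_coeff_top]
    simpa using hβ

lemma coeff_CmulX_pow (α : F) (n m : ℕ) :
    ((C α * X : F[X]) ^ n).coeff m = if m = n then α ^ n else 0 := by
  rw [mul_pow, ← C_pow, coeff_C_mul, coeff_X_pow]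
  split_ifs <;> simp

/-- The coefficient of `X^1 Y^0`. -/
lemma codePoly_coeff_zero_one (N : ℕ) (hN : 2 ≤ N) (α β : F) (p : ℕ → ℕ → F) :
    ((codePoly N α β p).coeff 0).coeff 1 = α := by
  rw [codePoly_coeff_zero]
  simp only [coeff_add, finsetSum_coeff, coeff_mul_C, coeff_CmulX_pow, coeff_C_mul, coeff_X_one,
    mul_one]
  rw [Finset.sum_eq_zero]
  · simp
  · intro j _
    refine Finset.sum_eq_zero fun k _ => ?_
    have : ¬ (1 = N * (j + 1) + k) := by
      have : N ≤ N * (j + 1) := Nat.le_mul_of_pos_right N (by omega)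
      omega
    rw [if_neg this]
    simp

lemma pair_inj {N j k j' k' : ℕ} (hk : k < N) (hk' : k' < N)
    (h : N * (j + 1) + k = N * (j' + 1) + k') : j = j' ∧ k = k' := by
  have hN : 0 < N := by omega
  have h1 : (N * (j + 1) + k) / N = j + 1 := by
    rw [Nat.mul_add_div hN, Nat.div_eq_of_lt hk, add_zero]
  have h2 : (N * (j' + 1) + k') / N = j' + 1 := by
    rw [Nat.mul_add_div hN, Nat.div_eq_of_lt hk', add_zero]
  have h3 : j = j' := by
    rw [h] at h1
    omega
  subst h3
  exact ⟨rfl, by omega⟩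

/-- The coefficient of `X^(N(j+1)+k) Y^0`. -/
lemma codePoly_coeff_zero_pair (N : ℕ) (hN : 2 ≤ N) (α β : F) (p : ℕ → ℕ → F) (j k : ℕ)
    (hj : j < N) (hk : k < N) :
    ((codePoly N α β p).coeff 0).coeff (N * (j + 1) + k) = α ^ (N * (j + 1) + k) * p j k := by
  rw [codePoly_coeff_zero]
  simp only [coeff_add, finsetSum_coeff, coeff_mul_C, coeff_CmulX_pow, coeff_C_mul]
  have hX : (X : F[X]).coeff (N * (j + 1) + k) = 0 := by
    rw [coeff_X_of_ne_one]
    have : N ≤ N * (j + 1) := Nat.le_mul_of_pos_right N (by omega)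
    omega
  rw [hX, mul_zero, zero_add, Finset.sum_eq_single j, Finset.sum_eq_single k]
  · simp
  · intro k' hk' hne
    have : ¬ (N * (j + 1) + k = N * (j + 1) + k') := by omega
    rw [if_neg this]
    simp
  · intro h
    exact absurd (Finset.mem_range.2 hk) h
  · intro j' _ hne
    refine Finset.sum_eq_zero fun k' hk' => ?_
    have : ¬ (N * (j + 1) + k = N * (j' + 1) + k') := by
      intro h
      exact hne (pair_inj hk (Finset.mem_range.1 hk') h).1.symm
    rw [if_neg this]
    simp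
  · intro h
    exact absurd (Finset.mem_range.2 hj) h

/-- The coefficient of `X^(N(j+1)+2k) Y^(j+1)`. -/
lemma codePoly_coeff_succ_pair (N : ℕ) (α β : F) (p : ℕ → ℕ → F) (j k : ℕ)
    (hj : j < N) (hk : k < N) :
    ((codePoly N α β p).coeff (j + 1)).coeff (N * (j + 1) + k + k) =
      α ^ (N * (j + 1) + k) := by
  rw [codePoly_coeff_succ N α β p j hj]
  simp only [finsetSum_coeff, mul_pow, ← C_pow, mul_assoc, ← pow_add, coeff_C_mul, coeff_X_pow]
  rw [Finset.sum_eq_single k]
  · simp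
  · intro k' _ hne
    have : ¬ (N * (j + 1) + k + k = N * (j + 1) + k' + k') := by omega
    rw [if_neg this]
    simp
  · intro h
    exact absurd (Finset.mem_range.2 hk) h

lemma codePoly_irreducible (N : ℕ) (hN : 2 ≤ N) (α β : F) (hα : α ≠ 0) (hβ : β ≠ 0)
    (p : ℕ → ℕ → F) : Irreducible (codePoly N α β p) := by
  have hdeg := codePoly_natDegree N α β hβ p
  have hne : codePoly N α β p ≠ 0 := by
    intro h
    rw [h] at hdeg
    simp at hdeg
  have hlead : (codePoly N α β p).leadingCoeff = C β := by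
    rw [leadingCoeff, hdeg, codePoly_coeff_top]
  have hP : (Ideal.span {(X : F[X])}).IsPrime := by
    rw [Ideal.span_singleton_prime X_ne_zero]
    exact prime_X
  refine irreducible_of_eisenstein_criterion hP ?_ ?_ ?_ ?_ ?_
  · rw [hlead, Ideal.mem_span_singleton]
    rw [X_dvd_iff]
    simpa using hβ
  · intro i hi
    rw [degree_eq_natDegree hne, hdeg] at hi
    have hi' : i < N + 1 := by exact_mod_cast hi
    rw [Ideal.mem_span_singleton]
    rcases i with _ | j
    · rw [codePoly_coeff_zero]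
      refine dvd_add (dvd_mul_left _ _) (Finset.dvd_sum fun j _ => Finset.dvd_sum fun k _ => ?_)
      refine Dvd.dvd.mul_right ?_ _
      refine dvd_pow (dvd_mul_left _ _) ?_
      have : N ≤ N * (j + 1) := Nat.le_mul_of_pos_right N (by omega)
      omega
    · rw [codePoly_coeff_succ N α β p j (by omega)]
      refine Finset.dvd_sum fun k _ => ?_
      refine Dvd.dvd.mul_right ?_ _
      refine dvd_pow (dvd_mul_left _ _) ?_
      have : N ≤ N * (j + 1) := Nat.le_mul_of_pos_right N (by omega)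
      omega
  · rw [degree_eq_natDegree hne, hdeg]
    exact_mod_cast Nat.succ_pos N
  · rw [Ideal.span_singleton_pow, Ideal.mem_span_singleton]
    intro h
    have h1 := codePoly_coeff_zero_one N hN α β p
    rw [X_pow_dvd_iff] at h
    rw [h 1 (by norm_num)] at h1
    exact hα h1.symm
  · intro r hr
    have h1 : r ∣ (codePoly N α β p).coeff (N + 1) := by
      obtain ⟨s, hs⟩ := hr
      rw [hs, coeff_C_mul]
      exact dvd_mul_right _ _
    rw [codePoly_coeff_top] at h1
    exact isUnit_of_dvd_unit h1 (isUnit_C.2 (isUnit_iff_ne_zero.2 hβ))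

/-- Division between code polynomials forces equality of the coded data. -/
lemma codePoly_dvd (N : ℕ) (hN : 2 ≤ N) (α β α' β' : F) (hα : α ≠ 0) (hβ : β ≠ 0)
    (hα' : α' ≠ 0) (hβ' : β' ≠ 0) (p p' : ℕ → ℕ → F)
    (h : codePoly N α β p ∣ codePoly N α' β' p') (j k : ℕ) (hj : j < N) (hk : k < N) :
    p j k = p' j k := by
  have hirr := codePoly_irreducible N hN α β hα hβ p
  have hirr' := codePoly_irreducible N hN α' β' hα' hβ' p'
  obtain ⟨s, hs⟩ := (hirr.associated_of_dvd hirr' h)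
  have hsu : IsUnit (s : F[X][Y]) := s.isUnit
  rw [Polynomial.isUnit_iff] at hsu
  obtain ⟨r, hr, hrs⟩ := hsu
  rw [Polynomial.isUnit_iff] at hr
  obtain ⟨c, _, hcr⟩ := hr
  rw [← hrs, ← hcr] at hs
  have h1 : ∀ a b, ((codePoly N α β p).coeff a).coeff b * c =
      ((codePoly N α' β' p').coeff a).coeff b := by
    intro a b
    rw [← hs, coeff_mul_C, coeff_mul_C]
  have h2 := h1 0 (N * (j + 1) + k)
  have h3 := h1 (j + 1) (N * (j + 1) + k + k)
  rw [codePoly_coeff_zero_pair N hN α β p j k hj hk,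
    codePoly_coeff_zero_pair N hN α' β' p' j k hj hk] at h2
  rw [codePoly_coeff_succ_pair N α β p j k hj hk,
    codePoly_coeff_succ_pair N α' β' p' j k hj hk] at h3
  rw [← h3] at h2
  have h4 : α ^ (N * (j + 1) + k) * c ≠ 0 := by
    rw [h3]
    exact pow_ne_zero _ hα'
  have h5 : α ^ (N * (j + 1) + k) * c * p j k = α ^ (N * (j + 1) + k) * c * p' j k := by
    rw [← h2]
    ring
  exact mul_left_cancel₀ h4 h5

end algebra

section separation

variable {F : Type u} [Field F]

/-- Power sums (with positive exponent of the second coordinate) of a finite set of points. -/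
noncomputable def pSum (A : Finset (F × F)) (j k : ℕ) : F := ∑ a ∈ A, a.2 ^ (j + 1) * a.1 ^ k

lemma pSum_eval (A B : Finset (F × F)) (N : ℕ)
    (h : ∀ j k, j < N → k < N → pSum A j k = pSum B j k) (q : MvPolynomial (Fin 2) F)
    (hq : q.totalDegree < N) :
    ∑ a ∈ A, a.2 * MvPolynomial.eval ![a.1, a.2] q =
      ∑ b ∈ B, b.2 * MvPolynomial.eval ![b.1, b.2] q := by
  have key : ∀ S : Finset (F × F), ∑ a ∈ S, a.2 * MvPolynomial.eval ![a.1, a.2] q =
      ∑ m ∈ q.support, q.coeff m * pSum S (m 1) (m 0) := by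
    intro S
    simp only [MvPolynomial.eval_eq', pSum, Finset.mul_sum]
    rw [Finset.sum_comm]
    refine Finset.sum_congr rfl fun m _ => Finset.sum_congr rfl fun a _ => ?_
    simp [Fin.prod_univ_two]
    ring
  rw [key A, key B]
  refine Finset.sum_congr rfl fun m hm => ?_
  have h1 : m 0 + m 1 < N := by
    have h2 := MvPolynomial.le_totalDegree hm
    rw [Finsupp.sum_fintype _ _ (fun _ => rfl), Fin.sum_univ_two] at h2
    omega
  rw [h (m 1) (m 0) (by omega) (by omega)]

lemma exists_separating [DecidableEq (F × F)] (W : Finset (F × F)) (c : F × F) (hc : c ∉ W) :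
    ∃ q : MvPolynomial (Fin 2) F, q.totalDegree ≤ W.card ∧
      MvPolynomial.eval ![c.1, c.2] q ≠ 0 ∧ ∀ d ∈ W, MvPolynomial.eval ![d.1, d.2] q = 0 := by
  classical
  induction W using Finset.induction_on with
  | empty => exact ⟨1, by simp, by simp, by simp⟩
  | insert d W hd ih =>
    obtain ⟨q, hq1, hq2, hq3⟩ := ih (fun h => hc (Finset.mem_insert_of_mem h))
    have hne : c ≠ d := fun h => hc (h ▸ Finset.mem_insert_self _ _)
    rw [Finset.card_insert_of_notMem hd]
    by_cases h1 : c.1 = d.1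
    · have h2 : c.2 ≠ d.2 := fun h => hne (Prod.ext h1 h)
      refine ⟨q * (MvPolynomial.X 1 - MvPolynomial.C d.2), ?_, ?_, ?_⟩
      · refine (MvPolynomial.totalDegree_mul _ _).trans (Nat.add_le_add hq1 ?_)
        refine (MvPolynomial.totalDegree_sub _ _).trans ?_
        simp [MvPolynomial.totalDegree_X]
      · simp only [map_mul, map_sub, MvPolynomial.eval_X, MvPolynomial.eval_C]
        refine mul_ne_zero hq2 (sub_ne_zero.2 ?_)
        simpa using h2
      · intro e he
        rcases Finset.mem_insert.1 he with rfl | he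
        · simp
        · simp [hq3 e he]
    · refine ⟨q * (MvPolynomial.X 0 - MvPolynomial.C d.1), ?_, ?_, ?_⟩
      · refine (MvPolynomial.totalDegree_mul _ _).trans (Nat.add_le_add hq1 ?_)
        refine (MvPolynomial.totalDegree_sub _ _).trans ?_
        simp [MvPolynomial.totalDegree_X]
      · simp only [map_mul, map_sub, MvPolynomial.eval_X, MvPolynomial.eval_C]
        refine mul_ne_zero hq2 (sub_ne_zero.2 ?_)
        simpa using h1
      · intro e he
        rcases Finset.mem_insert.1 he with rfl | he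
        · simp
        · simp [hq3 e he]

lemma subset_of_pSum (A B : Finset (F × F)) (hA : ∀ a ∈ A, a.2 ≠ 0) (N : ℕ)
    (hN : A.card + B.card ≤ N)
    (h : ∀ j k, j < N → k < N → pSum A j k = pSum B j k) : A ⊆ B := by
  classical
  intro c hc
  by_contra hcB
  obtain ⟨q, hq1, hq2, hq3⟩ := exists_separating ((A ∪ B).erase c) c (Finset.notMem_erase _ _)
  have hcard : ((A ∪ B).erase c).card < N := by
    have h1 : ((A ∪ B).erase c).card < (A ∪ B).card :=
      Finset.card_erase_lt_of_mem (Finset.mem_union_left _ hc)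
    have h2 := Finset.card_union_le A B
    omega
  have h1 := pSum_eval A B N h q (lt_of_le_of_lt hq1 hcard)
  have h2 : ∑ b ∈ B, b.2 * MvPolynomial.eval ![b.1, b.2] q = 0 := by
    refine Finset.sum_eq_zero fun b hb => ?_
    have hbc : b ≠ c := fun h => hcB (h ▸ hb)
    rw [hq3 b (Finset.mem_erase.2 ⟨hbc, Finset.mem_union_right _ hb⟩), mul_zero]
  have h3 : ∑ a ∈ A, a.2 * MvPolynomial.eval ![a.1, a.2] q =
      c.2 * MvPolynomial.eval ![c.1, c.2] q := by
    rw [Finset.sum_eq_single c]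
    · intro a ha hac
      rw [hq3 a (Finset.mem_erase.2 ⟨hac, Finset.mem_union_left _ ha⟩), mul_zero]
    · intro h
      exact absurd hc h
  rw [h2, h3] at h1
  exact mul_ne_zero (hA c hc) hq2 h1

lemma eq_of_pSum (A B : Finset (F × F)) (hA : ∀ a ∈ A, a.2 ≠ 0) (hB : ∀ a ∈ B, a.2 ≠ 0) (N : ℕ)
    (hN : A.card + B.card ≤ N)
    (h : ∀ j k, j < N → k < N → pSum A j k = pSum B j k) : A = B :=
  Finset.Subset.antisymm (subset_of_pSum A B hA N hN h)
    (subset_of_pSum B A hB N (by omega) fun j k hj hk => (h j k hj hk).symm)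

end separation

end coding

/-! ### The symmetric function and its specialisations -/

section combine

open Polynomial Polynomial.Bivariate

variable {F : Type u} [Field F]

/-- The symmetric function of `n + 1` points defining the hypergraph. -/
noncomputable def fval {ι : Type*} [Fintype ι] (N : ℕ) (x : ι → F × F) : F :=
  ∏ i, (x i).2 ^ (N + 1) + ∏ i, (x i).1 +
    ∑ j ∈ Finset.range N, ∑ k ∈ Finset.range N,
      (∏ i, (x i).1) ^ (N * (j + 1) + k) * ∑ i, (x i).2 ^ (j + 1) * (x i).1 ^ k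

/-- The specialisation at a finite set of points. -/
noncomputable def polyOf (N : ℕ) (A : Finset (F × F)) : F[X][Y] :=
  codePoly N (∏ a ∈ A, a.1) (∏ a ∈ A, a.2 ^ (N + 1)) (pSum A)

lemma fval_comp {ι κ : Type*} [Fintype ι] [Fintype κ] (N : ℕ) (x : ι → F × F) (σ : κ ≃ ι) :
    fval N (fun i => x (σ i)) = fval N x := by
  unfold fval
  rw [Equiv.prod_comp σ (fun i => (x i).2 ^ (N + 1)), Equiv.prod_comp σ (fun i => (x i).1)]
  congr 1
  refine Finset.sum_congr rfl fun j _ => Finset.sum_congr rfl fun k _ => ?_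
  rw [Equiv.sum_comp σ (fun i => (x i).2 ^ (j + 1) * (x i).1 ^ k)]

lemma fval_cons {n : ℕ} (N : ℕ) (x y : F) (b : Fin n → F × F) (hb : Function.Injective b)
    (A : Finset (F × F)) (hA : ∀ p, p ∈ A ↔ ∃ i, b i = p) :
    fval N (Fin.cons (x, y) b : Fin (n + 1) → F × F) = (polyOf N A).evalEval x y := by
  classical
  have hA' : A = Finset.univ.image b := by
    ext p
    simp [hA]
  have hprod : ∀ φ : F × F → F, ∏ a ∈ A, φ a = ∏ i, φ (b i) := by
    intro φ
    rw [hA', Finset.prod_image fun i _ j _ h => hb h]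
  have hsum : ∀ φ : F × F → F, ∑ a ∈ A, φ a = ∑ i, φ (b i) := by
    intro φ
    rw [hA', Finset.sum_image fun i _ j _ h => hb h]
  unfold fval polyOf codePoly pSum
  simp only [hprod, hsum, Fin.prod_univ_succ, Fin.sum_univ_succ, Fin.cons_zero, Fin.cons_succ,
    evalEval_add, evalEval_mul, evalEval_finsetSum, evalEval_pow, evalEval_C, evalEval_X, eval_C,
    eval_mul, eval_X, eval_pow]
  congr 1
  · ring
  · refine Finset.sum_congr rfl fun j _ => Finset.sum_congr rfl fun k _ => ?_
    ring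

lemma polyOf_irreducible (N : ℕ) (hN : 2 ≤ N) (A : Finset (F × F)) (hA : ∀ a ∈ A, a.1 ≠ 0)
    (hA' : ∀ a ∈ A, a.2 ≠ 0) : Irreducible (polyOf N A) :=
  codePoly_irreducible N hN _ _ (Finset.prod_ne_zero_iff.2 hA)
    (Finset.prod_ne_zero_iff.2 fun a ha => pow_ne_zero _ (hA' a ha)) _

lemma eq_of_polyOf_dvd (N : ℕ) (hN : 2 ≤ N) (A B : Finset (F × F)) (hA : ∀ a ∈ A, a.1 ≠ 0)
    (hA' : ∀ a ∈ A, a.2 ≠ 0) (hB : ∀ a ∈ B, a.1 ≠ 0) (hB' : ∀ a ∈ B, a.2 ≠ 0)
    (hcard : A.card + B.card ≤ N) (h : polyOf N A ∣ polyOf N B) : A = B :=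
  eq_of_pSum A B hA' hB' N hcard fun j k hj hk =>
    codePoly_dvd N hN _ _ _ _ (Finset.prod_ne_zero_iff.2 hA)
      (Finset.prod_ne_zero_iff.2 fun a ha => pow_ne_zero _ (hA' a ha))
      (Finset.prod_ne_zero_iff.2 hB)
      (Finset.prod_ne_zero_iff.2 fun a ha => pow_ne_zero _ (hB' a ha)) _ _ h j k hj hk

lemma natDegree_polyOf (N : ℕ) (A : Finset (F × F)) (hA' : ∀ a ∈ A, a.2 ≠ 0) :
    (polyOf N A).natDegree = N + 1 :=
  codePoly_natDegree N _ _ (Finset.prod_ne_zero_iff.2 fun a ha => pow_ne_zero _ (hA' a ha)) _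

lemma CX_not_dvd_Y : ¬ (C X : F[X][Y]) ∣ Y := by
  intro h
  rw [C_dvd_iff_dvd_coeff] at h
  have h1 := h 1
  rw [coeff_X_one] at h1
  exact not_isUnit_X (isUnit_of_dvd_one h1)

lemma Y_not_dvd_CX : ¬ (Y : F[X][Y]) ∣ C X := by
  intro h
  rw [X_dvd_iff, coeff_C_zero] at h
  exact X_ne_zero h

lemma CX_not_dvd_polyOf (N : ℕ) (A : Finset (F × F)) (hA' : ∀ a ∈ A, a.2 ≠ 0) :
    ¬ (C X : F[X][Y]) ∣ polyOf N A := by
  intro h
  rw [C_dvd_iff_dvd_coeff] at h
  have h1 := h (N + 1)
  unfold polyOf at h1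
  rw [codePoly_coeff_top, X_dvd_iff, coeff_C_zero] at h1
  exact Finset.prod_ne_zero_iff.2 (fun a ha => pow_ne_zero _ (hA' a ha)) h1

lemma Y_not_dvd_polyOf (N : ℕ) (hN : 2 ≤ N) (A : Finset (F × F)) (hA : ∀ a ∈ A, a.1 ≠ 0) :
    ¬ (Y : F[X][Y]) ∣ polyOf N A := by
  intro h
  rw [X_dvd_iff] at h
  have h1 := codePoly_coeff_zero_one N hN (∏ a ∈ A, a.1) (∏ a ∈ A, a.2 ^ (N + 1)) (pSum A)
  unfold polyOf at h
  rw [h, coeff_zero] at h1
  exact Finset.prod_ne_zero_iff.2 hA h1.symm

lemma polyOf_not_dvd_CX (N : ℕ) (A : Finset (F × F)) (hA' : ∀ a ∈ A, a.2 ≠ 0) :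
    ¬ polyOf N A ∣ (C X : F[X][Y]) := by
  intro h
  have h1 := natDegree_le_of_dvd h (C_ne_zero.2 X_ne_zero)
  rw [natDegree_polyOf N A hA', natDegree_C] at h1
  omega

lemma polyOf_not_dvd_Y (N : ℕ) (hN : 2 ≤ N) (A : Finset (F × F)) (hA' : ∀ a ∈ A, a.2 ≠ 0) :
    ¬ polyOf N A ∣ (Y : F[X][Y]) := by
  intro h
  have h1 := natDegree_le_of_dvd h X_ne_zero
  rw [natDegree_polyOf N A hA', natDegree_X] at h1
  omega

end combine

/-! ### The hypergraph -/

section hypergraph

open Polynomial Polynomial.Bivariate FirstOrder FirstOrder.Language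

variable {F : Type u} [Field F]

/-- The definable set carrying the hypergraph. -/
def carrierSet (F : Type u) [Field F] : Set (Fin 2 → F) := {p | p 0 ≠ 0 ∧ p 1 ≠ 0}

/-- The vertex set. -/
abbrev Vertex (F : Type u) [Field F] : Type u := Quotient (⊥ : Setoid (carrierSet F))

/-- The vertex given by a point. -/
def toVertex (p : carrierSet F) : Vertex F := Quotient.mk _ p

/-- The point of a vertex. -/
noncomputable def pt (v : Vertex F) : F × F := (v.out.1 0, v.out.1 1)

lemma out_toVertex (p : carrierSet F) : (toVertex p).out = p :=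
  (Quotient.mk_out (s := (⊥ : Setoid (carrierSet F))) p :)

lemma toVertex_out (v : Vertex F) : toVertex v.out = v := Quotient.out_eq v

lemma pt_toVertex (p : carrierSet F) : pt (toVertex p) = (p.1 0, p.1 1) := by
  unfold pt
  rw [out_toVertex]

lemma pt_injective : Function.Injective (pt : Vertex F → F × F) := by
  intro v w h
  unfold pt at h
  rw [Prod.mk.injEq] at h
  rw [← toVertex_out v, ← toVertex_out w]
  congr 1
  apply Subtype.ext
  funext i
  fin_cases i
  · exact h.1
  · exact h.2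

lemma pt_fst_ne_zero (v : Vertex F) : (pt v).1 ≠ 0 := v.out.2.1

lemma pt_snd_ne_zero (v : Vertex F) : (pt v).2 ≠ 0 := v.out.2.2

/-- The hypergraph relation. -/
def hyperRel (D : OrdData Fˣ) (c₀ : Fˣ) (n : ℕ) : Set (Fin (n + 1) → Vertex F) :=
  {x | Function.Injective x ∧ ∃ a : Fˣ, (a : F) = fval (2 * n) (fun i => pt (x i)) ∧ D.lt a c₀}

lemma extension_property [Infinite F] (D : OrdData Fˣ) (hD : IsGeneric D)
    (hasymm : ∀ a b : Fˣ, D.lt a b → ¬ D.lt b a) (c₀ a₁ c₁ : Fˣ) (h₁ : D.lt 1 c₀)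
    (h₂ : D.lt c₀ a₁) (h₃ : D.lt a₁ c₁) (n : ℕ) (hn : 0 < n)
    (𝒜 ℬ : Finset (Finset (Vertex F))) (hdisj : Disjoint 𝒜 ℬ) (h𝒜 : ∀ A ∈ 𝒜, A.card = n)
    (hℬ : ∀ B ∈ ℬ, B.card = n) : ∃ v : Vertex F, (∀ A ∈ 𝒜, v ∉ A) ∧ (∀ B ∈ ℬ, v ∉ B) ∧
      (∀ a : Fin n → Vertex F, (∃ A ∈ 𝒜, ∀ x, x ∈ A ↔ ∃ i, a i = x) →
        Fin.cons v a ∈ hyperRel D c₀ n) ∧
      (∀ b : Fin n → Vertex F, (∃ B ∈ ℬ, ∀ x, x ∈ B ↔ ∃ i, b i = x) →
        Fin.cons v b ∉ hyperRel D c₀ n) := by
  classical
  set N := 2 * n with hNdef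
  have hN : 2 ≤ N := by omega
  -- the index type and the polynomials
  let ι := Bool ⊕ {A : Finset (Vertex F) // A ∈ 𝒜 ∪ ℬ}
  let g : ι → F[X][Y] := Sum.elim (fun s => if s then Y else C X) fun A => polyOf N (A.1.image pt)
  have hg0 : g (Sum.inl false) = C X := by simp [g]
  have hg1 : g (Sum.inl true) = Y := by simp [g]
  have hgA : ∀ A, g (Sum.inr A) = polyOf N (A.1.image pt) := fun A => rfl
  have hx : ∀ A : Finset (Vertex F), ∀ a ∈ A.image pt, a.1 ≠ 0 := by
    intro A a ha
    obtain ⟨v, _, rfl⟩ := Finset.mem_image.1 ha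
    exact pt_fst_ne_zero v
  have hy : ∀ A : Finset (Vertex F), ∀ a ∈ A.image pt, a.2 ≠ 0 := by
    intro A a ha
    obtain ⟨v, _, rfl⟩ := Finset.mem_image.1 ha
    exact pt_snd_ne_zero v
  have hcard : ∀ A ∈ 𝒜 ∪ ℬ, A.card = n := by
    intro A hA
    rcases Finset.mem_union.1 hA with h | h
    · exact h𝒜 A h
    · exact hℬ A h
  have hprime : ∀ i, Prime (g i) := by
    rintro (s | A)
    · cases s
      · rw [hg0]
        exact prime_C_iff.2 prime_X
      · rw [hg1]
        exact prime_X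
    · rw [hgA]
      exact (polyOf_irreducible N hN _ (hx _) (hy _)).prime
  have hnd : ∀ i j, i ≠ j → ¬ g i ∣ g j := by
    rintro (s | A) (t | B) hij
    · cases s <;> cases t
      · exact absurd rfl hij
      · rw [hg0, hg1]
        exact CX_not_dvd_Y
      · rw [hg0, hg1]
        exact Y_not_dvd_CX
      · exact absurd rfl hij
    · cases s
      · rw [hg0, hgA]
        exact CX_not_dvd_polyOf N _ (hy _)
      · rw [hg1, hgA]
        exact Y_not_dvd_polyOf N hN _ (hx _)
    · cases t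
      · rw [hg0, hgA]
        exact polyOf_not_dvd_CX N _ (hy _)
      · rw [hg1, hgA]
        exact polyOf_not_dvd_Y N hN _ (hy _)
    · rw [hgA, hgA]
      intro h
      apply hij
      have h4 := eq_of_polyOf_dvd N hN _ _ (hx _) (hy _) (hx _) (hy _) (by
        rw [Finset.card_image_of_injective _ pt_injective,
          Finset.card_image_of_injective _ pt_injective, hcard _ A.2, hcard _ B.2]
        omega) h
      have h5 : A.1 = B.1 := Finset.image_injective pt_injective h4
      rw [Subtype.ext h5]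
  -- the polynomial avoiding the given points
  let e : F[X][Y] := ∏ A ∈ 𝒜 ∪ ℬ, ∏ v ∈ A, C (X - C (pt v).1)
  have he : e ≠ 0 := by
    refine Finset.prod_ne_zero_iff.2 fun A _ => Finset.prod_ne_zero_iff.2 fun v _ => ?_
    exact C_ne_zero.2 (X_sub_C_ne_zero _)
  -- the open conditions
  let O : ι → Set Fˣ := Sum.elim (fun _ => Set.univ) fun A =>
    if A.1 ∈ 𝒜 then {a | (1 = a ∨ D.lt 1 a) ∧ D.lt a c₀} else {a | D.lt c₀ a ∧ D.lt a c₁}
  have hO : ∀ i, @IsOpen Fˣ (orderTopology D) (O i) := by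
    rintro (s | A)
    · exact @isOpen_univ _ (orderTopology D)
    · change @IsOpen Fˣ (orderTopology D) (if A.1 ∈ 𝒜 then _ else _)
      split_ifs
      · exact TopologicalSpace.isOpen_generateFrom_of_mem (Or.inl ⟨c₀, rfl⟩)
      · exact TopologicalSpace.isOpen_generateFrom_of_mem (Or.inr ⟨c₀, c₁, rfl⟩)
  have hO' : ∀ i, (O i).Nonempty := by
    rintro (s | A)
    · exact ⟨1, Set.mem_univ _⟩
    · change (if A.1 ∈ 𝒜 then _ else _ : Set Fˣ).Nonempty
      split_ifs
      · exact ⟨1, Or.inl rfl, h₁⟩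
      · exact ⟨a₁, h₂, h₃⟩
  obtain ⟨x, y, hexy, hpat⟩ := exists_pattern D hD g (Sum.inl false) (Sum.inl true) hg0 hg1
    hprime hnd e he O hO hO'
  have hx0 : x ≠ 0 := by
    obtain ⟨u, _, hu⟩ := hpat (Sum.inl false)
    rw [hg0, evalEval_C, eval_X] at hu
    rw [← hu]
    exact u.ne_zero
  have hy0 : y ≠ 0 := by
    obtain ⟨u, _, hu⟩ := hpat (Sum.inl true)
    rw [hg1, evalEval_X] at hu
    rw [← hu]
    exact u.ne_zero
  let p : carrierSet F := ⟨![x, y], by simpa [carrierSet] using ⟨hx0, hy0⟩⟩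
  have hp : pt (toVertex p) = (x, y) := by
    rw [pt_toVertex]
    simp [p]
  have hnot : ∀ A ∈ 𝒜 ∪ ℬ, toVertex p ∉ A := by
    intro A hA hv
    apply hexy
    change (∏ A ∈ 𝒜 ∪ ℬ, ∏ v ∈ A, C (X - C (pt v).1)).evalEval x y = 0
    rw [evalEval_prod]
    refine Finset.prod_eq_zero hA ?_
    rw [evalEval_prod]
    refine Finset.prod_eq_zero hv ?_
    rw [hp, evalEval_C]
    simp
  have hval : ∀ (A : Finset (Vertex F)), A.card = n → ∀ a : Fin n → Vertex F,
      (∀ v, v ∈ A ↔ ∃ i, a i = v) → Function.Injective a ∧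
        fval N (fun i => pt ((Fin.cons (toVertex p) a : Fin (n + 1) → Vertex F) i)) =
          (polyOf N (A.image pt)).evalEval x y := by
    intro A hAc a ha
    have hA' : A = Finset.univ.image a := by
      ext v
      simp [ha]
    have hinj : Function.Injective a := by
      have h4 : (Finset.univ.image a).card = (Finset.univ : Finset (Fin n)).card := by
        rw [← hA', hAc, Finset.card_univ, Fintype.card_fin]
      have h5 := Finset.card_image_iff.1 h4
      intro i j hij
      exact h5 (by simp) (by simp) hij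
    refine ⟨hinj, ?_⟩
    rw [← fval_cons N x y (fun i => pt (a i)) (pt_injective.comp hinj)]
    · congr 1
      funext i
      refine Fin.cases ?_ (fun i => ?_) i
      · simp [hp]
      · simp
    · intro q
      simp only [Finset.mem_image, ha]
      constructor
      · rintro ⟨v, ⟨i, rfl⟩, rfl⟩
        exact ⟨i, rfl⟩
      · rintro ⟨i, rfl⟩
        exact ⟨a i, ⟨i, rfl⟩, rfl⟩
  refine ⟨toVertex p, fun A hA => hnot A (Finset.mem_union_left _ hA),
    fun B hB => hnot B (Finset.mem_union_right _ hB), ?_, ?_⟩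
  · rintro a ⟨A, hA, ha⟩
    obtain ⟨hinj, hf⟩ := hval A (h𝒜 A hA) a ha
    have hA2 := Finset.mem_union_left ℬ hA
    obtain ⟨u, hu, hu'⟩ := hpat (Sum.inr ⟨A, hA2⟩)
    have hOA : O (Sum.inr ⟨A, hA2⟩) = {a | (1 = a ∨ D.lt 1 a) ∧ D.lt a c₀} := if_pos hA
    rw [hOA] at hu
    refine ⟨?_, u, ?_, hu.2⟩
    · rw [Fin.cons_injective_iff]
      refine ⟨?_, hinj⟩
      rintro ⟨i, hi⟩
      exact hnot A hA2 ((ha _).2 ⟨i, hi⟩)
    · rw [hf, hu', hgA]
  · rintro b ⟨B, hB, hb⟩ ⟨_, u', hu1, hu2⟩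
    obtain ⟨_, hf⟩ := hval B (hℬ B hB) b hb
    have hB2 := Finset.mem_union_right 𝒜 hB
    obtain ⟨u, hu, hu'⟩ := hpat (Sum.inr ⟨B, hB2⟩)
    have hBA : B ∉ 𝒜 := fun h => (Finset.disjoint_left.1 hdisj h) hB
    have hOB : O (Sum.inr ⟨B, hB2⟩) = {a | D.lt c₀ a ∧ D.lt a c₁} := if_neg hBA
    rw [hOB] at hu
    have huu : u' = u := by
      ext
      rw [hu1, hf, hu', hgA]
    rw [huu] at hu2
    exact hasymm _ _ hu.1 hu2

lemma vertex_infinite [Infinite F] : Infinite (Vertex F) := by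
  have h1 : Infinite Fˣ := by
    by_contra hcon
    rw [not_infinite_iff_finite] at hcon
    have h2 : Function.Surjective (fun o : Option Fˣ => (o.elim 0 fun u => (u : F))) := by
      intro x
      by_cases hx : x = 0
      · exact ⟨none, hx.symm⟩
      · exact ⟨some (Units.mk0 x hx), rfl⟩
    exact not_finite_iff_infinite.2 inferInstance (Finite.of_surjective _ h2)
  refine Infinite.of_injective
    (fun u : Fˣ => toVertex (⟨![(u : F), 1], by simp [carrierSet]⟩ : carrierSet F)) ?_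
  intro u v huv
  have h2 := congrArg pt huv
  simp only [pt_toVertex] at h2
  exact Units.ext (by simpa using congrArg Prod.fst h2)

lemma hyperRel_random [Infinite F] (D : OrdData Fˣ) (hD : IsGeneric D)
    (hasymm : ∀ a b : Fˣ, D.lt a b → ¬ D.lt b a) (c₀ a₁ c₁ : Fˣ) (h₁ : D.lt 1 c₀)
    (h₂ : D.lt c₀ a₁) (h₃ : D.lt a₁ c₁) (n : ℕ) (hn : 0 < n) :
    IsRandomHypergraph n (hyperRel D c₀ n) where
  infinite := vertex_infinite
  symm := by
    rintro σ x ⟨hx, a, ha, ha'⟩
    refine ⟨hx.comp σ.injective, a, ?_, ha'⟩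
    rw [ha]
    exact (fval_comp (2 * n) (fun i => pt (x i)) σ).symm
  distinct := fun x hx => hx.1
  extension := extension_property D hD hasymm c₀ a₁ c₁ h₁ h₂ h₃ n hn

/-- The symmetric function as a polynomial in the coordinates. -/
noncomputable def fpoly (F : Type u) [Field F] (N m : ℕ) : MvPolynomial (Fin m × Fin 2) F :=
  ∏ i : Fin m, MvPolynomial.X (i, 1) ^ (N + 1) + ∏ i : Fin m, MvPolynomial.X (i, 0) +
    ∑ j ∈ Finset.range N, ∑ k ∈ Finset.range N,
      (∏ i : Fin m, MvPolynomial.X (i, 0)) ^ (N * (j + 1) + k) *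
        ∑ i : Fin m, MvPolynomial.X (i, 1) ^ (j + 1) * MvPolynomial.X (i, 0) ^ k

lemma eval_fpoly (N m : ℕ) (z : Fin m × Fin 2 → F) :
    MvPolynomial.eval z (fpoly F N m) = fval N fun i => (z (i, 0), z (i, 1)) := by
  simp [fpoly, fval]

lemma definable_carrier (D : OrdData Fˣ) {α : Type} (f : Fin 2 → α) :
    letI := fieldStructure F D
    (Set.univ : Set F).Definable Lc {z : α → F | (fun j => z (f j)) ∈ carrierSet F} := by
  let _ := fieldStructure F D
  have h0 := (definable_eq_zero D (MvPolynomial.X (f 0) : MvPolynomial α F)).compl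
  have h1 := (definable_eq_zero D (MvPolynomial.X (f 1) : MvPolynomial α F)).compl
  have h := h0.inter h1
  convert h using 1
  ext z
  simp [carrierSet]

lemma definable_coord_eq (D : OrdData Fˣ) {α : Type} (f g : Fin 2 → α) :
    letI := fieldStructure F D
    (Set.univ : Set F).Definable Lc {z : α → F | (fun j => z (f j)) = fun j => z (g j)} := by
  let _ := fieldStructure F D
  have h0 := definable_eq_zero D
    (MvPolynomial.X (f 0) - MvPolynomial.X (g 0) : MvPolynomial α F)
  have h1 := definable_eq_zero D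
    (MvPolynomial.X (f 1) - MvPolynomial.X (g 1) : MvPolynomial α F)
  have h := h0.inter h1
  convert h using 1
  ext z
  simp only [Set.mem_ofPred_eq, funext_iff, Fin.forall_fin_two, Set.mem_inter_iff, map_sub,
    MvPolynomial.eval_X, sub_eq_zero]

lemma definable_hyperRel (D : OrdData Fˣ) (c₀ : Fˣ) (n : ℕ) :
    letI := fieldStructure F D
    (Set.univ : Set F).Definable Lc {z : Fin (n + 1) × Fin 2 → F |
      ∃ h : ∀ i, (fun j => z (i, j)) ∈ carrierSet F,
        (fun i => (toVertex ⟨_, h i⟩ : Vertex F)) ∈ hyperRel D c₀ n} := by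
  classical
  let _ := fieldStructure F D
  have h1 : (Set.univ : Set F).Definable Lc
      (⋂ i : Fin (n + 1), {z : Fin (n + 1) × Fin 2 → F | (fun j => z (i, j)) ∈ carrierSet F}) :=
    Set.definable_iInter_of_finite fun i => definable_carrier D fun j => (i, j)
  have h2 : (Set.univ : Set F).Definable Lc
      (⋂ q : Fin (n + 1) × Fin (n + 1), if q.1 = q.2 then Set.univ else
        {z : Fin (n + 1) × Fin 2 → F | (fun j => z (q.1, j)) = fun j => z (q.2, j)}ᶜ) := by
    refine Set.definable_iInter_of_finite fun q => ?_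
    split_ifs
    · exact Set.definable_univ
    · exact (definable_coord_eq D (fun j => (q.1, j)) fun j => (q.2, j)).compl
  have h3 := definable_lt D (fpoly F (2 * n) (n + 1))
    (MvPolynomial.C (c₀ : F) : MvPolynomial (Fin (n + 1) × Fin 2) F)
  have h := (h1.inter h2).inter h3
  convert h using 1
  ext z
  simp only [Set.mem_ofPred_eq, Set.mem_inter_iff, Set.mem_iInter, eval_fpoly,
    MvPolynomial.eval_C]
  constructor
  · rintro ⟨hz, hinj, a, ha, hlt⟩
    refine ⟨⟨hz, ?_⟩, a, c₀, ?_, rfl, hlt⟩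
    · intro q
      split_ifs with hq
      · exact Set.mem_univ _
      · intro heq
        apply hq
        apply hinj
        change toVertex _ = toVertex _
        congr 1
        exact Subtype.ext heq
    · rw [ha]
      congr 1
      funext i
      rw [pt_toVertex]
  · rintro ⟨⟨hz, hq⟩, a, b, ha, hb, hlt⟩
    refine ⟨hz, ?_, a, ?_, ?_⟩
    · intro i j hij
      by_contra hne
      have h4 := hq (i, j)
      rw [if_neg hne] at h4
      apply h4
      have h5 : (toVertex ⟨_, hz i⟩ : Vertex F).out = (toVertex ⟨_, hz j⟩ : Vertex F).out :=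
        congrArg Quotient.out hij
      rw [out_toVertex, out_toVertex] at h5
      exact congrArg Subtype.val h5
    · rw [ha]
      congr 1
      funext i
      rw [pt_toVertex]
    · have : b = c₀ := Units.ext hb
      rwa [this] at hlt

end hypergraph

open FirstOrder FirstOrder.Language

/-- Models of `ACFO`: generic models of `ACFO^-`. -/
def IsModelACFO (F : Type u) [Field F] (D : OrdData Fˣ) : Prop :=
  IsModelACFOMinus F D ∧ IsGeneric D

/-- Every model of `ACFO` interprets a random `(n+1)`-hypergraph, for every `n > 0`. -/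
theorem result (F : Type u) [Field F] (D : OrdData Fˣ) (hF : IsModelACFO F D) (n : ℕ)
    (hn : 0 < n) : @InterpretsRandomHypergraph Lc F (fieldStructure F D) n := by
  obtain ⟨hM, hG⟩ := hF
  obtain ⟨c₀, a₁, c₁, h₁, h₂, h₃⟩ := chain_of_model hM
  have hasymm := asymm_of_model hM
  have hinf : Infinite F := by
    obtain ⟨p, _, _, hac, _⟩ := hM
    exact IsAlgClosed.instInfinite
  let _ := fieldStructure F D
  refine ⟨2, carrierSet F, ⊥, hyperRel D c₀ n, ?_, ?_, ?_, ?_⟩
  · exact definable_carrier D id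
  · have h4 := ((definable_carrier D (fun i : Fin 2 => (Sum.inl i : Fin 2 ⊕ Fin 2))).inter
      (definable_carrier D (fun i : Fin 2 => (Sum.inr i : Fin 2 ⊕ Fin 2)))).inter
      (definable_coord_eq D (fun i : Fin 2 => (Sum.inl i : Fin 2 ⊕ Fin 2))
        (fun i : Fin 2 => (Sum.inr i : Fin 2 ⊕ Fin 2)))
    convert h4 using 1
    ext z
    constructor
    · rintro ⟨ha, hb, hab⟩
      exact ⟨⟨ha, hb⟩, congrArg Subtype.val (show (⟨_, ha⟩ : carrierSet F) = ⟨_, hb⟩ from hab)⟩
    · rintro ⟨⟨ha, hb⟩, hab⟩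
      exact ⟨ha, hb, (Subtype.ext hab : (⟨_, ha⟩ : carrierSet F) = ⟨_, hb⟩)⟩
  · exact definable_hyperRel D c₀ n
  · exact hyperRel_random D hG hasymm c₀ a₁ c₁ h₁ h₂ h₃ n hn

end Pool.Agent.Results.MP_224b2b_lc.RandomHypergraph
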